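import Mathlib

set_option autoImplicit false
open Set Filter Topology Metric Complex Asymptotics
open scoped ComplexConjugate

namespace Pool.Agent.H.MP_f98e31_an

def HP : Set ℂ := {u | 0 < u.re}

lemma HP_open : IsOpen HP := isOpen_lt continuous_const continuous_re

lemma ne0 {a b : ℂ} (ha : 0 < a.re) (hb : 0 ≤ b.re) : a + conj b ≠ 0 := fun e => by
  have := congrArg re e
  simp at this; linarith

lemma nsq (a b : ℂ) : ‖a + conj b‖ ^ 2 = ‖a - b‖ ^ 2 + 4 * a.re * b.re := by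
  simp [Complex.sq_norm, normSq_apply]; ring

lemma nle {a b : ℂ} (ha : 0 ≤ a.re) (hb : 0 ≤ b.re) : ‖a - b‖ ≤ ‖a + conj b‖ := by
  rw [← sq_le_sq₀ (norm_nonneg _) (norm_nonneg _), nsq]
  nlinarith [mul_nonneg ha hb]

lemma sp {g : ℂ → ℂ} (hd : DifferentiableOn ℂ g HP) (hp : ∀ u ∈ HP, 0 < (g u).re) {u v : ℂ}
    (hu : u ∈ HP) (hv : v ∈ HP) : ‖g u - g v‖ * ‖u + conj v‖ ≤ ‖g u + conj (g v)‖ * ‖u - v‖ := by
  have n1 := ne0 hu hv.le
  have o : ∀ ζ ∈ ball (0 : ℂ) 1, 1 - ζ ≠ 0 := fun ζ h e => by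
    rw [← sub_eq_zero.1 e] at h; simp at h
  have m : MapsTo (fun ζ => (v + conj v * ζ) / (1 - ζ)) (ball 0 1) HP := fun ζ h => by
    have h1 : normSq ζ < 1 := by
      rw [normSq_eq_norm_sq]; exact pow_lt_one₀ (norm_nonneg _) (mem_ball_zero_iff.1 h) two_ne_zero
    have h2 := normSq_pos.2 (o ζ h)
    simp only [HP, mem_ofPred_eq, div_re, ← add_div]
    refine div_pos ?_ h2
    simp [normSq_apply] at h1 ⊢
    nlinarith [mul_pos hv (sub_pos.2 h1)]
  have d := hd.comp (by fun_prop (disch := exact o)) m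
  have lt : ‖(u - v) / (u + conj v)‖ < 1 := by
    rw [norm_div, div_lt_one (norm_pos_iff.2 n1), ← sq_lt_sq₀ (norm_nonneg _) (norm_nonneg _), nsq]
    nlinarith [mul_pos (show 0 < u.re from hu) (show 0 < v.re from hv)]
  have k := Complex.norm_le_norm_of_mapsTo_ball (R := 1)
    (f := fun ζ => (g ((v + conj v * ζ) / (1 - ζ)) - g v) / (g ((v + conj v * ζ) / (1 - ζ)) + conj (g v)))
    ((d.sub_const _).div (d.add_const _) fun ζ h => ne0 (hp _ (m h)) (hp _ hv).le) (fun ζ h => by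
      rw [mem_closedBall_zero_iff, norm_div]
      exact div_le_one_of_le₀ (nle (hp _ (m h)).le (hp _ hv).le) (norm_nonneg _)) (by simp) lt
  have e : (v + conj v * ((u - v) / (u + conj v))) / (1 - (u - v) / (u + conj v)) = u := by
    rw [div_eq_iff (o _ (mem_ball_zero_iff.2 lt))]; field_simp; ring
  rwa [e, norm_div, norm_div, div_le_div_iff₀ (norm_pos_iff.2 (ne0 (hp _ hu) (hp _ hv).le))
    (norm_pos_iff.2 n1), mul_comm ‖u - v‖] at k

lemma harn {k : ℂ → ℂ} (hd : DifferentiableOn ℂ k HP) (hp : ∀ u ∈ HP, 0 ≤ (k u).re) {u v : ℂ}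
    (hu : u ∈ HP) (hv : v ∈ HP) : ‖k u‖ * (u.re * v.re) ≤ ‖u + conj v‖ ^ 2 * ‖k v‖ := by
  have h : ‖k u - k v‖ * ‖u + conj v‖ ≤ ‖k u + conj (k v)‖ * ‖u - v‖ := by
    have c : Continuous fun δ : ℝ => ‖k u + δ + conj (k v + δ)‖ * ‖u - v‖ := by fun_prop
    have := (c.tendsto 0).mono_left (nhdsWithin_le_nhds (s := Ioi 0))
    simp only [ofReal_zero, add_zero] at this
    refine ge_of_tendsto this (mem_of_superset self_mem_nhdsWithin fun δ hδ => ?_)
    simpa using sp (hd.add_const (δ : ℂ)) (fun u hu => by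
      have := hp u hu; have : (0 : ℝ) < δ := hδ
      simp; linarith) hu hv
  have h1 := norm_sub_norm_le (k u) (k v)
  have h2 := norm_add_le (k u) (conj (k v))
  rw [norm_conj] at h2
  have h3 := nle hu.le hv.le
  have h4 := nsq u v
  have b0 := norm_nonneg (u - v)
  have := norm_nonneg (k u); have := norm_nonneg (k v)
  generalize ‖u + conj v‖ = a at *
  generalize ‖u - v‖ = b at *
  have h5 : ‖k u‖ * (a - b) ≤ ‖k v‖ * (a + b) := by nlinarith
  have h6 := mul_le_mul_of_nonneg_right h5 (show 0 ≤ a + b by linarith)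
  have h7 : ‖k v‖ * (a + b) ^ 2 ≤ ‖k v‖ * (2 * a) ^ 2 := 
    mul_le_mul_of_nonneg_left (pow_le_pow_left₀ (by linarith) (by linarith) 2) (norm_nonneg _)
  nlinarith

lemma bk {h : ℂ → ℂ} (hd : DifferentiableOn ℂ h HP) (hp : ∀ u ∈ HP, 0 < (h u).re) {ι : Type}
    {l : Filter ι} [l.NeBot] {y : ι → ℝ} (hy : Tendsto y l atTop)
    (ho : Tendsto (fun i => y i * (h (y i) - y i)) l (𝓝 0)) : ∀ u ∈ HP, h u = u := by
  have s : Tendsto (fun i => ((y i : ℂ))⁻¹) l (𝓝 0) := by
    simpa [Function.comp_def] using (continuous_ofReal.tendsto 0).comp hy.inv_tendsto_atTop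
  have pos := hy.eventually_gt_atTop 0
  have q : Tendsto (fun i => h (y i) * (y i : ℂ)⁻¹) l (𝓝 1) := by
    have := ((ho.mul s).mul s).add_const 1
    simp only [mul_zero, zero_add] at this
    refine this.congr' (pos.mono fun i hi => ?_)
    have : (y i : ℂ) ≠ 0 := ofReal_ne_zero.2 hi.ne'
    field_simp; ring
  have r : ∀ u : ℂ, Tendsto (fun i => ‖u * (y i : ℂ)⁻¹ + 1‖ ^ 2) l (𝓝 1) := fun u => by
    simpa using (((s.const_mul u).add_const 1).norm).pow 2
  have nn : ∀ (u : ℂ) i, 0 < y i → ‖u * (y i : ℂ)⁻¹ + 1‖ ^ 2 = ‖u + conj (y i : ℂ)‖ ^ 2 / y i ^ 2 :=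
    fun u i hi => by
      have : (y i : ℂ) ≠ 0 := ofReal_ne_zero.2 hi.ne'
      rw [conj_ofReal, show u * (y i : ℂ)⁻¹ + 1 = (u + y i) / y i by field_simp, norm_div, div_pow,
        norm_real, Real.norm_eq_abs, sq_abs]
  have j : ∀ u ∈ HP, u.re ≤ (h u).re := fun u hu => by
    have t1 := ((((s.const_mul (h u)).add ((continuous_conj.tendsto _).comp q)).norm).pow 2).const_mul u.re
    have t2 := (((continuous_re.tendsto _).comp q).mul (r u)).const_mul (h u).re
    simp only [mul_zero, zero_add, map_one, norm_one, one_pow, mul_one, one_re] at t1 t2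
    refine le_of_tendsto_of_tendsto t1 t2 (pos.mono fun i hi => ?_)
    have a := pow_le_pow_left₀ (by positivity) (sp hd hp hu (v := y i) hi) 2
    have a1 := nsq u (y i)
    have a2 := nsq (h u) (h (y i))
    have : (y i : ℂ) ≠ 0 := ofReal_ne_zero.2 hi.ne'
    simp only [Function.comp, nn u i hi]
    rw [show h u * (y i : ℂ)⁻¹ + conj (h (y i) * (y i : ℂ)⁻¹) = (h u + conj (h (y i))) / y i by
      simp; field_simp, norm_div, div_pow, norm_real, Real.norm_eq_abs, sq_abs, ← ofReal_inv,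
      re_mul_ofReal]
    rw [mul_pow, mul_pow, ofReal_re] at *
    field_simp
    nlinarith
  intro u hu
  have t := ((r u).mul ho.norm)
  simp only [norm_zero, mul_zero] at t
  have := ge_of_tendsto t (b := ‖h u - u‖ * u.re) (pos.mono fun i hi => by
    have := harn (k := fun u => h u - u) (hd.sub differentiableOn_id)
      (fun u hu => by simpa using j u hu) hu (v := y i) hi
    rw [nn u i hi, norm_mul, norm_real, Real.norm_eq_abs, abs_of_pos hi]
    rw [ofReal_re] at this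
    field_simp
    nlinarith)
  have : ‖h u - u‖ ≤ 0 := nonpos_of_mul_nonpos_left this hu
  exact sub_eq_zero.1 (norm_le_zero_iff.1 this)

lemma ql {g : ℂ → ℂ} (hd : DifferentiableOn ℂ g HP) (hp : ∀ u ∈ HP, 0 < (g u).re) {v w x : ℂ}
    (hv : v ∈ HP) (hw : w ∈ HP) (hx : x ∈ HP) (hwv : w ≠ v) : ∃ k : ℂ,
    ‖k‖ * (x.re * w.re) ≤ ‖x + conj w‖ ^ 2 *
      ‖1 - (g w - g v) / (w - v) * (w + conj v) / (g w + conj (g v))‖ ∧
    (g x - g v) * (x + conj v) = (1 - k) * (g x + conj (g v)) * (x - v) := by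
  have n : ∀ u ∈ HP, g u + conj (g v) ≠ 0 := fun u hu => ne0 (hp u hu) (hp v hv).le
  have d : DifferentiableOn ℂ (fun u => dslope g v u * (u + conj v) / (g u + conj (g v))) HP :=
    (((differentiableOn_dslope (HP_open.mem_nhds hv)).2 hd).mul (by fun_prop)).div (hd.add_const _) n
  have b : ∀ u ∈ HP, u ≠ v → ‖dslope g v u * (u + conj v) / (g u + conj (g v))‖ ≤ 1 := fun u hu h => by
    rw [dslope_of_ne _ h, slope_def_field, norm_div, norm_mul, norm_div, div_mul_eq_mul_div, div_div,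
      div_le_one (mul_pos (norm_pos_iff.2 (sub_ne_zero.2 h)) (norm_pos_iff.2 (n u hu))), mul_comm ‖u - v‖]
    exact sp hd hp hu hv
  have b' : ∀ u ∈ HP, ‖dslope g v u * (u + conj v) / (g u + conj (g v))‖ ≤ 1 := fun u hu => by
    rcases eq_or_ne u v with rfl | h
    · refine le_of_tendsto ((d.continuousOn.continuousAt (HP_open.mem_nhds hu)).norm.tendsto.mono_left
        (nhdsWithin_le_nhds (s := {u}ᶜ))) ?_
      filter_upwards [self_mem_nhdsWithin, mem_nhdsWithin_of_mem_nhds (HP_open.mem_nhds hu)]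
        with z h1 h2 using b z h2 h1
    · exact b u hu h
  refine ⟨1 - dslope g v x * (x + conj v) / (g x + conj (g v)), ?_, ?_⟩
  · have := harn (d.const_sub 1) (fun u hu => by
      have := (re_le_norm _).trans (b' u hu)
      rw [sub_re, one_re]; linarith) hx hw
    rwa [dslope_of_ne _ hwv, slope_def_field] at this
  · rw [sub_sub_cancel, div_mul_cancel₀ _ (n x hx), ← sub_smul_dslope g v x, smul_eq_mul]; ring

end Pool.Agent.H.MP_f98e31_an
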