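import Pool.Agent.H.MP_f98e31_an.A

set_option autoImplicit false
open Set Filter Topology Metric Complex Asymptotics
open scoped ComplexConjugate

namespace Pool.Agent.H.MP_f98e31_an

def Om : Set (ℂ × ℂ) := {w | ∃ a ∈ HP, ∃ b ∈ HP, w = (a + b, a * b)}

lemma roots (s p : ℂ) : ∃ a b, s = a + b ∧ p = a * b := by
  obtain ⟨r, hr⟩ := IsAlgClosed.exists_pow_nat_eq (s ^ 2 - 4 * p) two_pos
  exact ⟨(s + r) / 2, (s - r) / 2, by ring, by linear_combination hr / 4⟩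

lemma mem_Om {y : ℂ} {c : ℝ} (hy : y ∈ HP) (hc : 0 < c) : (y, (c : ℂ)) ∈ Om := by
  obtain ⟨a, b, rfl, h⟩ := roots y c
  have h1 := congrArg re h
  have h2 := congrArg im h
  have h3 : 0 < (a + b).re := hy
  simp at h1 h2 h3
  have k1 : a.re * (b.re ^ 2 + b.im ^ 2) = c * b.re := by linear_combination (-b.re) * h1 - b.im * h2
  have k2 : b.re * (a.re ^ 2 + a.im ^ 2) = c * a.re := by linear_combination (-a.re) * h1 - a.im * h2
  refine ⟨a, ?_, b, ?_, by rw [h]⟩ <;> by_contra hh <;> simp only [HP, mem_ofPred_eq, not_lt] at hh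
  · nlinarith [mul_nonneg (neg_nonneg.2 hh) (add_nonneg (sq_nonneg b.re) (sq_nonneg b.im)),
      mul_pos hc (show 0 < b.re by linarith)]
  · nlinarith [mul_nonneg (neg_nonneg.2 hh) (add_nonneg (sq_nonneg a.re) (sq_nonneg a.im)),
      mul_pos hc (show 0 < a.re by linarith)]

lemma mul_HP {u : ℂ} {e : ℝ} (hu : u ∈ HP) (he : 0 < e) : (e : ℂ) * u ∈ HP := by
  simpa [HP] using mul_pos he hu

lemma core1 {T : ℂ × ℂ → ℂ} (hd : DifferentiableOn ℂ T Om) (hp : ∀ w ∈ Om, 0 < (T w).re) {v : ℂ}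
    (hv : v ∈ HP) (ho : ∀ j : ℝ, 0 ≤ j → Tendsto (fun e : ℝ => (T (e * (v + j * e) + (v + j * e),
      e * (v + j * e) * (v + j * e)) - (e * (v + j * e) + (v + j * e))) / e ^ 3) (𝓝[>] 0) (𝓝 0))
    {c : ℝ} (hc : 0 < c) : ∀ y ∈ HP, T (y, c) = y := by
  let g : ℝ → ℂ → ℂ := fun e u => T (e * u + u, e * u * u) / (1 + e)
  have mo : ∀ e : ℝ, 0 < e → MapsTo (fun u : ℂ => (e * u + u, e * u * u)) HP Om :=
    fun e he u hu => ⟨_, mul_HP hu he, _, hu, rfl⟩
  have hw : ∀ e : ℝ, 0 < e → v + e ∈ HP := fun e he => by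
    simpa [HP] using add_pos (show 0 < v.re from hv) he
  have e0 : ∀ t : ℝ, 0 < t → 0 < c * t ^ 2 := fun t ht => by positivity
  have q : ∀ t : ℝ, 0 < t → _ := fun t ht => ql (g := g (c * t ^ 2))
    ((hd.comp (by fun_prop) (mo _ (e0 t ht))).div_const _) (fun u hu => by
      have := hp _ (mo _ (e0 t ht) hu)
      simp only [g]
      rw [← ofReal_one, ← ofReal_add, div_ofReal_re]
      exact div_pos this (by positivity)) hv (hw _ (e0 t ht)) (x := (t⁻¹ : ℝ))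
      (show 0 < (((t⁻¹ : ℝ) : ℂ)).re by rw [ofReal_re]; positivity) (by simp [hc.ne', ht.ne'])
  choose! k hk1 hk2 using q
  have tt : Tendsto (fun t : ℝ => (t : ℂ)) (𝓝[>] 0) (𝓝 0) :=
    (continuous_ofReal.tendsto' 0 0 rfl).mono_left nhdsWithin_le_nhds
  have te : Tendsto (fun t : ℝ => c * t ^ 2) (𝓝[>] 0) (𝓝[>] 0) :=
    tendsto_nhdsWithin_iff.2 ⟨(Continuous.tendsto' (by fun_prop) 0 0 (by simp)).mono_left
      nhdsWithin_le_nhds, mem_of_superset self_mem_nhdsWithin e0⟩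
  have c0 : (c : ℂ) ≠ 0 := ofReal_ne_zero.2 hc.ne'
  have n1 : ∀ t : ℝ, (1 + c * (t : ℂ) ^ 2) ≠ 0 := fun t => by
    exact_mod_cast (by positivity : (1 + c * t ^ 2 : ℝ) ≠ 0)
  let B : ℝ → ℝ → ℂ := fun j t => (g (c * t ^ 2) (v + j * (c * t ^ 2 : ℝ)) - (v + j * (c * t ^ 2 : ℝ))) / t ^ 6
  have tB : ∀ j : ℝ, 0 ≤ j → Tendsto (B j) (𝓝[>] 0) (𝓝 0) := fun j hj => by
    have := (((ho j hj).comp te).const_mul ((c : ℂ) ^ 3)).div
      (((tt.pow 2).const_mul (c : ℂ)).const_add 1) (by simp)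
    simp only [mul_zero, zero_div] at this
    refine this.congr' (mem_of_superset self_mem_nhdsWithin fun t ht => ?_)
    have : (t : ℂ) ≠ 0 := ofReal_ne_zero.2 (ne_of_gt ht)
    have := n1 t
    simp only [B, g, Function.comp, Pi.div_apply, mem_ofPred_eq]
    push_cast
    field_simp
    ring
  have g0 : ∀ t : ℝ, 0 < t → g (c * t ^ 2) v = v + B 0 t * t ^ 6 := fun t ht => by
    have : (t : ℂ) ≠ 0 := ofReal_ne_zero.2 ht.ne'
    simp [B, this]
  have g1 : ∀ t : ℝ, 0 < t → g (c * t ^ 2) (v + (c * t ^ 2 : ℝ)) = v + c * t ^ 2 + B 1 t * t ^ 6 :=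
    fun t ht => by
      have : (t : ℂ) ≠ 0 := ofReal_ne_zero.2 ht.ne'
      simp [B, this]
  clear_value B
  have vv : v + conj v ≠ 0 := ne0 hv hv.le
  have tK : Tendsto (fun t : ℝ => k t / t ^ 3) (𝓝[>] 0) (𝓝 0) := by
    have ct : ContinuousAt (fun x : ℂ × ℂ × ℂ => ‖1 + x.1 * conj (v + c * x.1 ^ 2)‖ ^ 2 *
        ‖(c * x.1 ^ 2 * (x.2.2 + conj x.2.1) - (x.2.2 - x.2.1) * (v + c * x.1 ^ 2 + conj v)) /
        (c * (v + c * x.1 ^ 2 + x.2.2 * x.1 ^ 6 + conj (v + x.2.1 * x.1 ^ 6)))‖ / v.re) (0, 0, 0) := by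
      fun_prop (disch := first | exact hv.ne' | simp [c0, vv])
    have := ct.tendsto.comp (tt.prodMk_nhds ((tB 0 le_rfl).prodMk_nhds (tB 1 zero_le_one)))
    simp only [map_zero, add_zero, mul_zero, sub_self, zero_mul, zero_div, norm_zero] at this
    refine squeeze_zero_norm' (mem_of_superset self_mem_nhdsWithin fun t ht => ?_) this
    have t0 : (0 : ℝ) < t := ht
    have : (t : ℂ) ≠ 0 := ofReal_ne_zero.2 t0.ne'
    have h := hk1 t ht
    have dn := ne0 (show 0 < (g (c * t ^ 2) (v + (c * t ^ 2 : ℝ))).re by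
      have := hp _ (mo _ (e0 t ht) (hw _ (e0 t ht)))
      simp only [g]
      rw [← ofReal_one, ← ofReal_add, div_ofReal_re]
      exact div_pos this (by positivity)) (show 0 ≤ (g (c * t ^ 2) v).re by
      have := hp _ (mo _ (e0 t ht) hv)
      simp only [g]
      rw [← ofReal_one, ← ofReal_add, div_ofReal_re]
      exact (div_pos this (by positivity)).le)
    rw [g0 t t0, g1 t t0] at h dn
    simp only [Function.comp, mem_ofPred_eq]
    generalize hD : v + c * (t : ℂ) ^ 2 + B 1 t * t ^ 6 + conj (v + B 0 t * t ^ 6) = Dn at h dn ⊢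
    rw [show 1 - (v + c * (t : ℂ) ^ 2 + B 1 t * t ^ 6 - (v + B 0 t * t ^ 6)) / (v + (c * t ^ 2 : ℝ) - v) *
        (v + (c * t ^ 2 : ℝ) + conj v) / Dn = t ^ 4 * ((c * (t : ℂ) ^ 2 * (B 1 t + conj (B 0 t)) -
        (B 1 t - B 0 t) * (v + c * (t : ℂ) ^ 2 + conj v)) / (c * Dn)) by
      simp only [map_add, map_mul, map_pow, conj_ofReal] at hD
      push_cast; rw [add_sub_cancel_left]; field_simp; linear_combination (-c * t ^ 2) * hD,
      show ((t⁻¹ : ℝ) : ℂ) + conj (v + (c * t ^ 2 : ℝ)) = (1 + t * conj (v + c * t ^ 2)) / t by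
        push_cast; field_simp, norm_mul, norm_div, norm_pow, norm_real, Real.norm_eq_abs,
      abs_of_pos t0, ofReal_re, add_re, ofReal_re] at h
    rw [norm_div (k t), norm_pow, norm_real, Real.norm_eq_abs, abs_of_pos t0,
      div_le_div_iff₀ (by positivity) hv]
    have := mul_nonneg (norm_nonneg (k t)) (e0 t t0).le
    generalize ‖(1 : ℂ) + _ * conj _‖ = N1 at h ⊢
    generalize ‖_ / (c * Dn)‖ = N2 at h ⊢
    field_simp at h
    nlinarith
  refine bk (h := fun y => T (y, c)) (hd.comp (by fun_prop) fun y hy => mem_Om hy hc)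
    (fun y hy => hp _ (mem_Om hy hc)) (l := 𝓝[>] (0 : ℝ)) (y := fun t => c * t + t⁻¹)
    (tendsto_atTop_mono' _ (mem_of_superset self_mem_nhdsWithin fun t ht => le_add_of_nonneg_left
      (mul_pos hc ht).le) tendsto_inv_nhdsGT_zero) ?_
  have tr := tt.prodMk_nhds ((tB 0 le_rfl).prodMk_nhds tK)
  have cd : ContinuousAt (fun x : ℂ × ℂ × ℂ => v + conj v + x.2.2 * x.1 ^ 2 * (1 - x.1 * v))
      (0, 0, 0) := by fun_prop
  have ct : ContinuousAt (fun x : ℂ × ℂ × ℂ => (1 + c * x.1 ^ 2) ^ 2 *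
      ((x.2.1 * x.1 ^ 4 * (1 + x.1 * conj v) + conj x.2.1 * x.1 ^ 4 * (1 - x.1 * v) -
      x.2.2 * (1 + x.1 * (conj v + conj x.2.1 * x.1 ^ 6)) * (1 - x.1 * v)) /
      (v + conj v + x.2.2 * x.1 ^ 2 * (1 - x.1 * v)))) (0, 0, 0) := by
    fun_prop (disch := simp [vv])
  have := ct.tendsto.comp tr
  simp only [map_zero, add_zero, mul_zero, sub_self, zero_mul, zero_div] at this
  refine this.congr' ?_
  filter_upwards [self_mem_nhdsWithin, (cd.tendsto.comp tr).eventually_ne (show _ ≠ (0 : ℂ) by simp [vv])]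
    with t ht hn
  have t0 : (0 : ℝ) < t := ht
  have : (t : ℂ) ≠ 0 := ofReal_ne_zero.2 t0.ne'
  have h := hk2 t ht
  have := n1 t
  rw [g0 t t0] at h
  have e : g (c * t ^ 2) (t⁻¹ : ℝ) = T (((c * t + t⁻¹ : ℝ) : ℂ), c) / (1 + c * t ^ 2) := by
    simp only [g]; push_cast; congr 3 <;> field_simp
  rw [e] at h
  simp only [Function.comp] at hn ⊢
  simp only [map_add, map_mul, map_pow, conj_ofReal] at h
  rw [← mul_div_assoc, div_eq_iff hn]
  generalize T _ = τ at h ⊢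
  push_cast at h ⊢
  field_simp at h ⊢
  linear_combination (-t * (1 + c * t ^ 2)) * h

lemma ident {f : ℂ → ℂ} (hd : DifferentiableOn ℂ f HP) (h : ∀ x : ℝ, 0 < x → f x = 0) :
    ∀ u ∈ HP, f u = 0 := by
  refine (hd.analyticOnNhd HP_open).eqOn_zero_of_preconnected_of_frequently_eq_zero
    (convex_halfSpace_re_gt 0).isPreconnected (z₀ := 1) (by simp [HP]) ?_
  have : Tendsto (fun t : ℝ => ((1 + t : ℝ) : ℂ)) (𝓝[>] 0) (𝓝[≠] 1) :=
    tendsto_nhdsWithin_iff.2 ⟨(Continuous.tendsto' (by fun_prop) 0 1 (by simp)).mono_left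
      nhdsWithin_le_nhds, mem_of_superset self_mem_nhdsWithin fun t ht => by simpa using ne_of_gt ht⟩
  exact this.frequently (Eventually.frequently (mem_of_superset self_mem_nhdsWithin fun t ht =>
    h _ (add_pos one_pos ht)))

lemma core {T : ℂ × ℂ → ℂ} (hd : DifferentiableOn ℂ T Om) (hp : ∀ w ∈ Om, 0 < (T w).re) {v : ℂ}
    (hv : v ∈ HP) (ho : ∀ j : ℝ, 0 ≤ j → Tendsto (fun e : ℝ => (T (e * (v + j * e) + (v + j * e),
      e * (v + j * e) * (v + j * e)) - (e * (v + j * e) + (v + j * e))) / e ^ 3) (𝓝[>] 0) (𝓝 0)) :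
    ∀ a ∈ HP, ∀ b ∈ HP, T (a + b, a * b) = a + b := fun a ha b hb => by
  refine sub_eq_zero.1 (ident (f := fun a => T (a + b, a * b) - (a + b)) ((hd.comp (by fun_prop)
    fun a ha => ⟨a, ha, b, hb, rfl⟩).sub (by fun_prop)) (fun x hx => ?_) a ha)
  refine ident (f := fun b => T (x + b, x * b) - (x + b)) ((hd.comp (by fun_prop)
    fun b hb => ⟨x, hx, b, hb, rfl⟩).sub (by fun_prop)) (fun y hy => ?_) b hb
  rw [← ofReal_mul, core1 hd hp hv ho (mul_pos hx hy) _ (by simpa [HP] using add_pos hx hy), sub_self]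

end Pool.Agent.H.MP_f98e31_an
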