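import Pool.Agent.H.MP_f98e31_an.B

set_option autoImplicit false
open Set Filter Topology Metric Complex Asymptotics
open scoped ComplexConjugate

namespace Pool.Agent.H.MP_f98e31_an

def G : Set (ℂ × ℂ) := {z | ∃ a b : ℂ, ‖a‖ < 1 ∧ ‖b‖ < 1 ∧ z = (a + b, a * b)}

lemma G_open : IsOpen G := by
  refine Metric.isOpen_iff.2 ?_
  rintro _ ⟨a, b, ha, hb, rfl⟩
  set ρ := max ‖a‖ ‖b‖ with hρ
  have r1 : 0 < 1 - ρ := sub_pos.2 (max_lt ha hb)
  have r0 : 0 ≤ ρ := (norm_nonneg a).trans (le_max_left _ _)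
  refine ⟨(1 - ρ) ^ 2 / 2, by positivity, fun z hz => ?_⟩
  have key : ∀ x : ℂ, x ^ 2 - z.1 * x + z.2 = 0 → ‖x‖ < 1 := fun x hx => by
    by_contra h
    rw [not_lt] at h
    rw [mem_ball, Prod.dist_eq, max_lt_iff, dist_eq_norm, dist_eq_norm] at hz
    have e : (x - a) * (x - b) = (z.1 - (a + b)) * x - (z.2 - a * b) := by linear_combination hx
    have h1 : (1 - ρ) * ‖x‖ ≤ ‖x - a‖ := by nlinarith [norm_sub_norm_le x a, le_max_left ‖a‖ ‖b‖]
    have h2 : 1 - ρ ≤ ‖x - b‖ := by nlinarith [norm_sub_norm_le x b, le_max_right ‖a‖ ‖b‖]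
    have h3 := mul_le_mul h1 h2 r1.le (norm_nonneg _)
    have h4 := norm_sub_le ((z.1 - (a + b)) * x) (z.2 - a * b)
    rw [← norm_mul, e] at h3
    rw [norm_mul] at h4
    nlinarith [hz.1, hz.2, norm_nonneg (z.2 - a * b)]
  obtain ⟨x, y, h1, h2⟩ := roots z.1 z.2
  exact ⟨x, y, key x (by rw [h1, h2]; ring), key y (by rw [h1, h2]; ring), Prod.ext h1 h2⟩

lemma bdry {p : ℂ × ℂ} (hp : p ∈ frontier G)
    (hS : ¬ ∃ a b : ℂ, ‖a‖ = 1 ∧ ‖b‖ = 1 ∧ p = (a + b, a * b)) :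
    ∃ e l : ℂ, ‖e‖ = 1 ∧ ‖l‖ < 1 ∧ p = (e + l, e * l) := by
  rw [G_open.frontier_eq] at hp
  obtain ⟨⟨a, b⟩, ⟨ha, hb⟩, rfl⟩ := closure_minimal
    (t := (fun x : ℂ × ℂ => (x.1 + x.2, x.1 * x.2)) '' (closedBall 0 1 ×ˢ closedBall 0 1))
    (by rintro _ ⟨a, b, ha, hb, rfl⟩
        exact ⟨(a, b), ⟨mem_closedBall_zero_iff.2 ha.le, mem_closedBall_zero_iff.2 hb.le⟩, rfl⟩)
    (((isCompact_closedBall _ _).prod (isCompact_closedBall _ _)).image (by fun_prop)).isClosed hp.1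
  rw [mem_closedBall_zero_iff] at ha hb
  rcases ha.eq_or_lt with ha | ha <;> rcases hb.eq_or_lt with hb | hb
  · exact absurd ⟨a, b, ha, hb, rfl⟩ hS
  · exact ⟨a, b, ha, hb, rfl⟩
  · exact ⟨b, a, hb, ha, by simp [add_comm, mul_comm]⟩
  · exact absurd ⟨a, b, ha, hb, rfl⟩ hp.2

noncomputable def M (e ω u : ℂ) : ℂ := e * (1 - conj ω * u) / (1 + ω * u)
noncomputable def N (e ω l : ℂ) : ℂ := (e - l) / (ω * l + e * conj ω)
noncomputable def Pm (e ω : ℂ) (w : ℂ × ℂ) : ℂ × ℂ :=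
  (e * (2 + (ω - conj ω) * w.1 - 2 * ω * conj ω * w.2) / (1 + ω * w.1 + ω ^ 2 * w.2),
    e ^ 2 * (1 - conj ω * w.1 + conj ω ^ 2 * w.2) / (1 + ω * w.1 + ω ^ 2 * w.2))
noncomputable def den (e ω : ℂ) (z : ℂ × ℂ) : ℂ :=
  ω ^ 2 * z.2 + e * ω * conj ω * z.1 + e ^ 2 * conj ω ^ 2
noncomputable def Ps (e ω : ℂ) (z : ℂ × ℂ) : ℂ :=
  (e * (ω - conj ω) * z.1 + 2 * e ^ 2 * conj ω - 2 * ω * z.2) / den e ω z

variable {e ω : ℂ}

lemma m1 (hω : ω ∈ HP) {u : ℂ} (hu : u ∈ HP) : ‖1 - conj ω * u‖ < ‖1 + ω * u‖ := by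
  rw [← sq_lt_sq₀ (norm_nonneg _) (norm_nonneg _)]
  simp [Complex.sq_norm, normSq_apply]
  nlinarith [mul_pos (show 0 < ω.re from hω) (show 0 < u.re from hu)]

lemma m2 (hω : ω ∈ HP) {u : ℂ} (hu : u ∈ HP) : 1 + ω * u ≠ 0 :=
  norm_pos_iff.1 ((norm_nonneg _).trans_lt (m1 hω hu))

lemma m3 (he : ‖e‖ = 1) (hω : ω ∈ HP) {u : ℂ} (hu : u ∈ HP) : ‖M e ω u‖ < 1 := by
  rw [M, norm_div, norm_mul, he, one_mul, div_lt_one (norm_pos_iff.2 (m2 hω hu))]; exact m1 hω hu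

lemma n1 (he : ‖e‖ = 1) (hω : ω ∈ HP) {l : ℂ} (hl : ‖l‖ < 1) : ω * l + e * conj ω ≠ 0 := fun h => by
  have := congrArg norm (eq_neg_of_add_eq_zero_left h)
  rw [norm_neg, norm_mul, norm_mul, he, norm_conj] at this
  nlinarith [(show 0 < ω.re from hω).trans_le (re_le_norm ω)]

lemma n2 (he : ‖e‖ = 1) (hω : ω ∈ HP) {l : ℂ} (hl : ‖l‖ < 1) : N e ω l ∈ HP := by
  have h1 : normSq l < 1 := by
    rw [normSq_eq_norm_sq]; exact pow_lt_one₀ (norm_nonneg _) hl two_ne_zero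
  have h2 : normSq e = 1 := by rw [normSq_eq_norm_sq, he, one_pow]
  simp only [HP, N, mem_ofPred_eq, div_re, ← add_div]
  refine div_pos ?_ (normSq_pos.2 (n1 he hω hl))
  have := mul_pos (show 0 < ω.re from hω) (sub_pos.2 (h2 ▸ h1))
  simp [normSq_apply] at this ⊢
  nlinarith

lemma ww (he : ‖e‖ = 1) (hω : ω ∈ HP) : e * (ω + conj ω) ≠ 0 :=
  mul_ne_zero (norm_pos_iff.1 (by rw [he]; norm_num)) (ne0 hω hω.le)

lemma MN (he : ‖e‖ = 1) (hω : ω ∈ HP) {l : ℂ} (hl : ‖l‖ < 1) : M e ω (N e ω l) = l := by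
  rw [M, div_eq_iff (m2 hω (n2 he hω hl)), N]
  linear_combination (e - l) * mul_inv_cancel₀ (n1 he hω hl) * (-1)

lemma NM (he : ‖e‖ = 1) (hω : ω ∈ HP) {u : ℂ} (hu : u ∈ HP) : N e ω (M e ω u) = u := by
  rw [N, div_eq_iff (n1 he hω (m3 he hω hu)), M]
  linear_combination (e * conj ω * u - e) * mul_inv_cancel₀ (m2 hω hu)

lemma Pm_eq {a b : ℂ} (ha : 1 + ω * a ≠ 0) (hb : 1 + ω * b ≠ 0) :
    Pm e ω (a + b, a * b) = (M e ω a + M e ω b, M e ω a * M e ω b) := by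
  simp only [Pm, M, show 1 + ω * (a + b) + ω ^ 2 * (a * b) = (1 + ω * a) * (1 + ω * b) by ring]
  refine Prod.ext ?_ ?_ <;> simp only <;> field_simp <;> ring

lemma den_eq (a b : ℂ) : den e ω (a + b, a * b) = (ω * a + e * conj ω) * (ω * b + e * conj ω) := by
  simp only [den]; ring

lemma den_ne (he : ‖e‖ = 1) (hω : ω ∈ HP) {z : ℂ × ℂ} (hz : z ∈ G) : den e ω z ≠ 0 := by
  obtain ⟨a, b, ha, hb, rfl⟩ := hz
  rw [den_eq]; exact mul_ne_zero (n1 he hω ha) (n1 he hω hb)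

lemma Ps_eq (he : ‖e‖ = 1) (hω : ω ∈ HP) {a b : ℂ} (ha : ‖a‖ < 1) (hb : ‖b‖ < 1) :
    Ps e ω (a + b, a * b) = N e ω a + N e ω b := by
  rw [Ps, den_eq, N, N, div_add_div _ _ (n1 he hω ha) (n1 he hω hb)]
  congr 1; ring

lemma mainA (he : ‖e‖ = 1) (hω : ω ∈ HP) {l : ℂ} (hl : ‖l‖ < 1) {F : ℂ × ℂ → ℂ × ℂ}
    (hF : DifferentiableOn ℂ F G) (hm : MapsTo F G G)
    (h : (fun z => F z - z) =o[𝓝[G] (e + l, e * l)] fun z => ‖z - (e + l, e * l)‖ ^ 3) :
    ∀ z ∈ G, Ps e ω (F z) = Ps e ω z := by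
  have pm : MapsTo (Pm e ω) Om G := by
    rintro _ ⟨a, ha, b, hb, rfl⟩
    exact ⟨_, _, m3 he hω ha, m3 he hω hb, Pm_eq (m2 hω ha) (m2 hω hb)⟩
  have pp : ∀ a ∈ HP, ∀ b ∈ HP, Ps e ω (Pm e ω (a + b, a * b)) = a + b := fun a ha b hb => by
    rw [Pm_eq (m2 hω ha) (m2 hω hb), Ps_eq he hω (m3 he hω ha) (m3 he hω hb), NM he hω ha,
      NM he hω hb]
  have dP : DifferentiableOn ℂ (Pm e ω) Om := by
    have : ∀ w ∈ Om, 1 + ω * w.1 + ω ^ 2 * w.2 ≠ 0 := by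
      rintro _ ⟨a, ha, b, hb, rfl⟩
      convert mul_ne_zero (m2 hω ha) (m2 hω hb) using 1; ring
    unfold Pm; fun_prop (disch := exact this)
  have dS : DifferentiableOn ℂ (Ps e ω) G := by
    have : ∀ z ∈ G, den e ω z ≠ 0 := fun z => den_ne he hω
    have d : DifferentiableOn ℂ (den e ω) G := by unfold den; fun_prop
    unfold Ps
    simp only [div_eq_mul_inv]
    exact DifferentiableOn.mul (by fun_prop) (d.inv this)
  have hv := n2 he hω hl
  have k := core (T := fun w => Ps e ω (F (Pm e ω w))) (dS.comp (hF.comp dP pm) (hm.comp pm))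
    (fun w hw => by
      obtain ⟨a, b, ha, hb, e1⟩ := hm (pm hw)
      simp only [e1, Ps_eq he hω ha hb, add_re]
      exact add_pos (n2 he hω ha) (n2 he hω hb)) hv fun j hj => by
      set v := N e ω l
      let z : ℝ → ℂ × ℂ := fun t => Pm e ω (t * (v + j * t) + (v + j * t), t * (v + j * t) * (v + j * t))
      have hu : ∀ t : ℝ, 0 < t → v + j * t ∈ HP := fun t ht => by
        simpa [HP] using add_pos_of_pos_of_nonneg (show 0 < v.re from hv) (mul_nonneg hj ht.le)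
      have z0 : z 0 = (e + l, e * l) := by
        have := Pm_eq (e := e) (ω := ω) (a := 0) (by simp) (m2 hω hv)
        rw [MN he hω hl] at this
        simpa [z, M] using this
      have zd : DifferentiableAt ℝ z 0 := by
        have := m2 hω hv
        have d : DifferentiableAt ℂ (fun t : ℂ => Pm e ω (t * (v + j * t) + (v + j * t),
            t * (v + j * t) * (v + j * t))) ((0 : ℝ) : ℂ) := by
          unfold Pm; fun_prop (disch := simpa using this)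
        exact (d.restrictScalars ℝ).comp 0 ofRealCLM.differentiableAt
      have zt : Tendsto z (𝓝[>] 0) (𝓝[G] (e + l, e * l)) := tendsto_nhdsWithin_iff.2
        ⟨(z0 ▸ zd.continuousAt.tendsto).mono_left nhdsWithin_le_nhds, mem_of_superset
          self_mem_nhdsWithin fun t ht => pm ⟨_, mul_HP (hu t ht) ht, _, hu t ht, rfl⟩⟩
      have o1 : (fun t => F (z t) - z t) =o[𝓝[>] 0] fun t : ℝ => (t : ℂ) ^ 3 := by
        refine (h.comp_tendsto zt).trans_isBigO ?_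
        have := (zd.isBigO_sub.norm_left.pow 3).mono (nhdsWithin_le_nhds (s := Ioi 0))
        rw [z0] at this
        refine this.trans (IsBigO.of_norm_right ?_)
        simpa [← abs_pow] using isBigO_refl (fun t : ℝ => t ^ 3) _
      have zt' := zt.mono_right nhdsWithin_le_nhds
      have ft : Tendsto (fun t => F (z t)) (𝓝[>] 0) (𝓝 (e + l, e * l)) := by
        have := (o1.trans_tendsto ((Continuous.tendsto' (by fun_prop) 0 0 (by simp)).mono_left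
          nhdsWithin_le_nhds)).add zt'
        simpa using this
      have cd : ContDiffAt ℂ 1 (Ps e ω) (e + l, e * l) := by
        have : den e ω (e + l, e * l) ≠ 0 := by
          rw [den_eq]; exact mul_ne_zero (by convert ww he hω using 1; ring) (n1 he hω hl)
        unfold Ps den at *; fun_prop (disch := exact this)
      have o2 := ((cd.hasStrictFDerivAt one_ne_zero).isBigO_sub.comp_tendsto
        (ft.prodMk_nhds zt')).trans_isLittleO o1
      refine o2.tendsto_div_nhds_zero.congr' (mem_of_superset self_mem_nhdsWithin fun t ht => ?_)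
      simp only [Function.comp, mem_ofPred_eq, z, pp _ (mul_HP (hu t ht) ht) _ (hu t ht)]
  rintro _ ⟨a, b, ha, hb, rfl⟩
  have := k _ (n2 he hω ha) _ (n2 he hω hb)
  simp only [Pm_eq (m2 hω (n2 he hω ha)) (m2 hω (n2 he hω hb)), MN he hω ha, MN he hω hb] at this
  rw [this, Ps_eq he hω ha hb]

lemma main {p : ℂ × ℂ} (hp : p ∈ frontier G)
    (hS : ¬ ∃ a b : ℂ, ‖a‖ = 1 ∧ ‖b‖ = 1 ∧ p = (a + b, a * b)) {F : ℂ × ℂ → ℂ × ℂ}
    (hF : DifferentiableOn ℂ F G) (hm : MapsTo F G G)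
    (h : (fun z => F z - z) =o[𝓝[G] p] fun z => ‖z - p‖ ^ 3) : ∀ z ∈ G, F z = z := fun z hz => by
  obtain ⟨e, l, he, hl, rfl⟩ := bdry hp hS
  have key : ∀ ω ∈ HP, ω ^ 2 * (z.2 * (F z).1 - (F z).2 * z.1) + e ^ 2 * conj ω ^ 2 * (z.1 - (F z).1) +
      2 * e * ω * conj ω * (z.2 - (F z).2) = 0 := fun ω hω => by
    have := mainA he hω hl hF hm h z hz
    rw [Ps, Ps, div_eq_div_iff (den_ne he hω (hm hz)) (den_ne he hω hz), den, den] at this
    exact mul_left_cancel₀ (ww he hω) (by linear_combination this)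
  have k1 := key 1 (by simp [HP])
  have k2 := key (1 + I) (by simp [HP])
  have k3 := key (1 - I) (by simp [HP])
  have e0 : e ≠ 0 := norm_pos_iff.1 (by rw [he]; norm_num)
  simp only [map_one, map_add, map_sub, conj_I] at k1 k2 k3
  have y : z.2 - (F z).2 = 0 := mul_left_cancel₀ e0 (by
    linear_combination (k2 + k3) / 8 - (z.2 * (F z).1 - (F z).2 * z.1 + e ^ 2 * (z.1 - (F z).1) -
      2 * e * (z.2 - (F z).2)) / 4 * I_sq)
  have x : z.1 - (F z).1 = 0 := mul_left_cancel₀ (mul_ne_zero I_ne_zero (pow_ne_zero 2 e0)) (by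
    linear_combination I * k1 / 2 - (k2 - k3) / 8 - I * e * y)
  exact Prod.ext (sub_eq_zero.1 x).symm (sub_eq_zero.1 y).symm

end Pool.Agent.H.MP_f98e31_an
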